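import Pool.Agent.Lib_helper11.PLM.F.Main

/-!
The compact-open topology is minimal on `PL(M)` for every connected PL manifold `M` (without
boundary) of dimension `n ≠ 3`.

`plGroupoid n` is the groupoid of piecewise linear homeomorphisms between open subsets of `ℝ^n`:
a map is piecewise linear (`LocPL`) if it is continuous and near every point it is, at every
point, equal to one of finitely many affine maps.  (Such a map is affine on the cells of a local
hyperplane arrangement, so this is the usual notion.)  A PL manifold is a charted space whose
changes of charts lie in `plGroupoid n`; `PLHomeo n M` is the group of homeomorphisms of `M`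
which are PL in all charts; `coTop n M` is the restriction of the compact-open topology.

Outline.  Let `t` be a coarser Hausdorff group topology, different from the compact-open one; `N`
denotes `t`-neighbourhoods of the identity.  Small homeomorphisms supported in a chart ball lie in
`N`; a small `N` displaces no given open set.  (1) For every `N` there is an open set `V` crossing
a fixed slab of one fixed chart, inside a tube as thin as we like, such that every PL
homeomorphism supported in `V` lies in `N` (`exists_bad_chart`, `cross0_of_bad`, `cross_dir`,
`cross_tube`).  (2) Cut the tube into `L ~ 1/ε(N)` slabs, choose `N₂` with `N₂^(2L) ⊆ N` and `V`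
for `N₂`; in every slab take one piece of `V` crossing it and join consecutive pieces through the
hyperplane between them, which is `ε(N₂)`-small.  Each piece is unknotted in its slab by a PL
homeomorphism supported in the slab (`lul_one`, `lul_two`, `lul_four`: this is where `n ≠ 3` is
used), hence `ε(N)`-small.  So `N^3` contains homeomorphisms pushing along straight thin strips
(`single_tube`).  (3) Doing this in a grid of tubes and expanding the strips by an `ε(N)`-small
homeomorphism (`many_tubes`), and using `n` shifted grids (`displace`), one displaces a fixed box
by an element of a bounded power of `N`, a contradiction.
-/

set_option autoImplicit false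

universe u

open Pool.Agent.Lib_helper11.PLM

namespace Pool.Agent.Results.MP_817937_gt.Minimal

/-- For every connected PL manifold `M` of dimension `n ≠ 3` the compact-open topology on `PL(M)`
is a Hausdorff group topology, and every coarser Hausdorff group topology on `PL(M)` is equal to
it. -/
theorem result (n : ℕ) (hn : n ≠ 3) (M : Type u) [TopologicalSpace M] [T2Space M]
    [ConnectedSpace M] [ChartedSpace (E n) M] [HasGroupoid M (plGroupoid n)] :
    @IsTopologicalGroup (PLHomeo n M) (coTop n M) _ ∧ @T2Space (PLHomeo n M) (coTop n M) ∧
      ∀ t : TopologicalSpace (PLHomeo n M), @IsTopologicalGroup (PLHomeo n M) t _ →
        @T2Space (PLHomeo n M) t → coTop n M ≤ t → t = coTop n M :=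
  main n hn M

end Pool.Agent.Results.MP_817937_gt.Minimal
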